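import Pool.Agent.BCX6.Final
import Pool.Agent.BCX6.Transport

/-!
# Primitive BCH codes of fixed designed distance

`K` is a finite field with `q` elements, `L` is an extension of degree `m` and `δ` a fixed
designed distance.  If `m` is large enough, the minimum distance is `δ` if `q` does not divide
`δ`, and `δ + 1` if `q` divides `δ`.

Proof.  If `q` divides `δ`, the codes of designed distances `δ` and `δ + 1` are equal.  So let `q`
not divide `δ = p ^ v n`, `p` not dividing `n`, `v < s`, `q = p ^ s`.  A codeword of weight `δ` is a
set of `δ + 1` elements `x` of `L` (one of them may be moved to `0`) with coefficients `c` in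
`K ^ *` such that `∑ c x ^ l = 0` for `l < δ`.
If `v = 0` or `p = 2`, such words are constructed over the separable closure of `K(t)` in `K((t))`
by Hensel's lemma, adding clusters of points near infinity, and specialised to all large finite
fields `L` by Stepanov's method.
If `p` is odd and `v + 2 ≤ s` or `n ≥ 2 p + 3`, the points are zeros of the polynomials
`A + z B_i` of one-parameter families, whose monodromy groups over the algebraic closure of `K(z)`
contain the alternating groups (local analysis at `z = 0`, Jordan's theorem on cycles of prime
length) and are equal to the arithmetic ones (discriminants, Goursat's lemma); so all of them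
split for some `z` in `L`.
If `p` is odd and `v + 1 = s`, the word is deformed: near a degenerate solution given by the
elements `1 / h`, `Tr h = 0`, the Jacobian matrix is invertible by a smoothness theorem for the
functions `x ^ (p ^ j)`.
-/

open Pool.Agent.Helper36.BCH

theorem Pool.Agent.Results.MP_049e46_lc.FixedDistance.result (q δ : ℕ) (hδ : 2 ≤ δ) :
    ∃ m0 : ℕ, ∀ (K L : Type) [Field K] [Finite K] [Field L] [Finite L] [Algebra K L] (α : L),
      Nat.card K = q → m0 ≤ Module.finrank K L → IsPrimitiveElement α →
      (IsMinDist K α δ δ ↔ ¬ q ∣ δ) ∧ (q ∣ δ → IsMinDist K α δ (δ + 1)) :=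
  BCX6.final_of (fun _ _ _ _ hδ hq => BCX6.attained hδ hq) q δ hδ
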