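import Pool.Agent.Helper36.BCH.Gap

/-!
# When the minimum distance of a primitive BCH code is larger than the designed distance

`K` is a finite field with `q = p ^ s` elements, `L` an extension of degree `m`, `α` a primitive
element of `L` and `d` the true minimum distance of the narrow-sense primitive BCH code of length
`q ^ m - 1` and designed distance `δ`.

1. A necessary condition for `d = δ`, for all `δ`. Suppose that the base `p` digit sums of all
   `j` with `0 < j < q ^ m - 1` such that the residues of `j * q ^ i` modulo `q ^ m - 1` are at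
   most `q ^ m - 1 - δ` for all `i` are at most `D`. If `(e + s - 1) * D < s * m`, then
   `p ^ e` divides `d + 1`.
2. If `k ≥ 2` does not divide `m ≥ 2 * k` and
   `δ ≥ q ^ m - q ^ (m - 1) - q ^ (m - k) - q ^ (m - 2 * k)`, then `p * q ^ (k - 1)` divides
   `d + 1`.
3. If `k ≥ 2` does not divide `m > 3 * k`, then
   `δ = q ^ m - 1 - q ^ (m - 1) - q ^ (m - k) - q ^ (k - 1)` is a Bose distance and
   `d ≥ δ + q ^ (k - 1)`.

Proof. A word of minimum weight extends to a function `f : L → K` with `d + 1` nonzero values
which is, as a map of abelian groups, of degree at most `D`. The number of zeros of such an `f` is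
divisible by `p ^ e` (a theorem of Ax, McEliece, Moreno and Moreno; here the proof is by
differences of the map `x ↦ [f x]` to a group ring). Under the condition in 2. the digit sums are
at most `m / k`: the base `q` digits of `j` are at most `1`, and a gap of length `k - 1` between two
ones is followed by a gap of length at least `k + 1`.
-/

namespace Pool.Agent.Results.MP_049e46_lc.LargerDistance

open Pool.Agent.Helper36.BCH

theorem result (K L : Type) [Field K] [Field L] [Algebra K L] [Finite L] (p s m q : ℕ)
    (hp : p.Prime) (hq : q = p ^ s) (hK : Nat.card K = q) (hL : Nat.card L = q ^ m) (α : L)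
    (hα : IsPrimitiveElement α) (δ d : ℕ) (hδ : 2 ≤ δ) (hd : IsMinDist K α δ d) :
    (∀ D e : ℕ, 1 ≤ D → (e + s - 1) * D < s * m →
      (∀ j, 0 < j → j < q ^ m - 1 → (∀ i, j * q ^ i % (q ^ m - 1) + δ ≤ q ^ m - 1) →
        (Nat.digits p j).sum ≤ D) → p ^ e ∣ d + 1) ∧
    (∀ k, 2 ≤ k → 2 * k ≤ m → ¬ k ∣ m →
      q ^ m ≤ δ + q ^ (m - 1) + q ^ (m - k) + q ^ (m - 2 * k) → p * q ^ (k - 1) ∣ d + 1) ∧
    (∀ k, 2 ≤ k → 3 * k < m → ¬ k ∣ m →
      δ + 1 + q ^ (m - 1) + q ^ (m - k) + q ^ (k - 1) = q ^ m →
      IsBose K α δ ∧ δ + q ^ (k - 1) ≤ d) := by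
  subst hK
  refine ⟨fun D e hD he hdig => ?_, fun k hk hm hkm hB => ?_, fun k hk hm hkm hB => ?_⟩
  · rw [← hL] at hdig
    exact dvd_minDist hp hq hL hα hδ hd hD he hdig
  · exact dvd_minDist_range hp hq hL hα hδ hd hk hm hkm hB
  · exact gap_family hp hq hL hα hd hk hm hkm hB

end Pool.Agent.Results.MP_049e46_lc.LargerDistance
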