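import Pool.Agent.Helper36.BCH.Pigeon

/-!
# More families of primitive BCH codes whose minimum distance is the designed distance

`K` is a finite field with `q` elements, `L` an extension with `q ^ m` elements.

1. Let `F ⊆ K`, `r = |F|`. If `c 0 ∣ c 1 ∣ ... ∣ c (k - 1) ∣ c k = r - 1`,
   `a * (r - 1) / c 0 ≤ q - 1` and `δ = a * r ^ k + c 0 * r ^ (k - 1) + ... + c (k - 1)`, then the
   minimum distance is `δ` for all `m` with `r ^ δ ≤ q ^ m` (for `F = K`: for all `m ≥ δ`).
2. Let `F ⊆ K`, `r = |F|`. If `δ + 1 = 2 * (r ^ h - 1) / (r - 1) * r ^ j`, then the minimum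
   distance is `δ` if `q ^ m` is large enough.
3. Let `K ⊆ E ⊆ L`. If `e` divides `(|E| - 1) / (q - 1)` and `δ + 1 = (a * e + 1) * q ^ j` with
   `a ≤ q - 1`, or `e = (|E| - 1) / (q - 1)` and `δ + 1 = (a * e + 2) * q ^ j` with `a ≤ q - 2`,
   where `|E| * q ^ j ≤ q ^ m`, then the minimum distance is `δ`.

Proof. In each case there is a set `S` of `δ + 1` elements of `L` such that the values at the
elements of `S` of the derivative of the polynomial with the zeros `S` lie in one coset of `K ^ *`.
In 1. `S` is obtained from a subset of `K` by preimages under linearised polynomials and quotients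
by roots of unity. In 2. `S` consists of the `(r - 1)`-th powers of the nonzero elements of two
subspaces whose linearised polynomials `X + b 1 * X ^ r + ...` differ in `b 1` only, which exist by
the pigeonhole principle. In 3. `S` consists of `0` and `e`-th roots of elements of `K`, or of two
points and members of the pencil of norm hypersurfaces with these base points.
-/

open Pool.Agent.Helper36.BCH Module

theorem Pool.Agent.Results.MP_049e46_lc.MoreFamilies.result
    {K L : Type} [Field K] [Field L] [Fintype K] [Fintype L] [Algebra K L] {α : L}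
    (hα : IsPrimitiveElement α) {δ : ℕ} (hδ2 : 2 ≤ δ) :
    (∀ (F : Type) [Field F] [Fintype F] [Algebra F K] [Algebra F L] [IsScalarTower F K L]
      (a k : ℕ) (c : ℕ → ℕ), (∀ i < k, c i ∣ c (i + 1)) → c k = Fintype.card F - 1 →
      a * ((Fintype.card F - 1) / c 0) ≤ Fintype.card K - 1 →
      δ = a * Fintype.card F ^ k + ∑ i ∈ Finset.range k, c i * Fintype.card F ^ (k - 1 - i) →
      Fintype.card F ^ δ ≤ Fintype.card L → IsMinDist K α δ δ) ∧
    (∀ (F : Type) [Field F] [Fintype F] [Algebra F K] [Algebra F L] [IsScalarTower F K L]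
      (h j e : ℕ), 1 ≤ h → e = (Fintype.card F ^ h - 1) / (Fintype.card F - 1) →
      Fintype.card F ^ (h * h) < Fintype.card L →
      (j = 0 ∨ Fintype.card F ^ (2 * e + j) ≤ Fintype.card L) →
      δ + 1 = 2 * e * Fintype.card F ^ j → IsMinDist K α δ δ) ∧
    (∀ (E : Type) [Field E] [Fintype E] [Algebra K E] [Algebra E L] [IsScalarTower K E L]
      (a e j : ℕ), Fintype.card E * Fintype.card K ^ j ≤ Fintype.card L →
      (a ≤ Fintype.card K - 1 ∧ e ∣ (Fintype.card E - 1) / (Fintype.card K - 1) ∧
          δ + 1 = (a * e + 1) * Fintype.card K ^ j ∨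
        a ≤ Fintype.card K - 2 ∧ e = (Fintype.card E - 1) / (Fintype.card K - 1) ∧
          δ + 1 = (a * e + 2) * Fintype.card K ^ j) → IsMinDist K α δ δ) := by
  classical
  refine ⟨?_, ?_, ?_⟩
  · intro F _ _ _ _ _ a k c hc hck ha hδ hL
    have hr : 1 < Fintype.card F := Fintype.one_lt_card
    rw [Module.card_eq_pow_finrank (K := F) (V := L)] at hL
    have hdim := (Nat.pow_le_pow_iff_right hr).1 hL
    rw [← chain_eq] at hδ
    rw [hδ] at hdim
    obtain ⟨S, hS, hcard⟩ := exists_chain (F := F) (K := K) (L := L) hc hck ha hdim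
    exact hS.isMinDist hα (by omega) (by rw [hcard, hδ])
  · intro F _ _ _ _ _ h j e hh he hL hj hδ
    have hr : 1 < Fintype.card F := Fintype.one_lt_card
    rw [Module.card_eq_pow_finrank (K := F) (V := L)] at hL hj
    have hM := (Nat.pow_lt_pow_iff_right hr).1 hL
    have hege : ge (Fintype.card F) h = e := by
      rw [he, ← ge_mul hr.le h, Nat.add_sub_cancel, Nat.mul_div_cancel_left _ (by omega)]
    obtain ⟨V, V', b, b', hV, hV', hb0, hb0', hb1, hb2, hbV, hbV'⟩ :=
      exists_pair (F := F) (L := L) hh hM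
    obtain ⟨S, hS, hcard⟩ := balanced_pair (K := K) hh hV hV' hb0 hb0' hb1 hb2 hbV hbV'
    rw [hege] at hcard
    rcases hj with rfl | hj
    · exact hS.isMinDist hα (by omega) (by rw [hcard, hδ, pow_zero, mul_one])
    · have hj' := (Nat.pow_le_pow_iff_right hr).1 hj
      have hspan := finrank_span_finset_le_card (R := F) S
      simp only [Set.finrank] at hspan
      obtain ⟨S', hS', hc', -, -⟩ := hS.blowup (F := F) (Submodule.span F (S : Set L))
        (fun x hx => Submodule.subset_span hx) j (by omega)
      exact hS'.isMinDist hα (by omega) (by rw [hc', hcard, hδ])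
  · intro E _ _ _ _ _ a e j hj hδ
    rcases hδ with ⟨ha, he, hδ⟩ | ⟨ha, he, hδ⟩
    · obtain ⟨S, hS, hcard⟩ := exists_balanced_pow (K := K) (E := E) he ha
      obtain ⟨S', hS', hc'⟩ := hS.ext (L := L) j hj
      exact hS'.isMinDist hα (by omega) (by rw [hc', hcard, hδ])
    · obtain ⟨S, hS, hcard⟩ := exists_balanced_pencil (K := K) (E := E) he ha
      obtain ⟨S', hS', hc'⟩ := hS.ext (L := L) j hj
      exact hS'.isMinDist hα (by omega) (by rw [hc', hcard, hδ])
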