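import Pool.Agent.Helper36.BCH.Upper
import Pool.Agent.Helper36.BCH.Farr

/-!
# Upper bounds for the minimum distance of every primitive BCH code

The third bound, `d ≤ 2 * R + 1` where `R` is the number of the positive integers less than `δ` which
are not divisible by `q`, holds for fixed `δ` and all large `m`. For `q = 2` it is a theorem of
Farr; for `q = 3` it is about `4 * δ / 3`.
-/

open Pool.Agent.Helper36.BCH

/-- For every prime power `q = p ^ s`, every `m` and every designed distance
`2 ≤ δ ≤ q ^ m - 1`, the minimum distance `d` of the primitive BCH code over `GF(q)` satisfies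
`2 d ≤ 3 δ - 1` if `q ≥ 3`, and `d ≤ (1 + p / q) δ - 1` if `δ ≥ q`, and `d ≤ 2 R + 1` if
`q ^ m > (R + 1) ^ (R + 1)`, `R = δ - 1 - ⌊(δ - 1) / q⌋`. -/
theorem Pool.Agent.Results.MP_049e46_lc.UpperBound.result
    {K L : Type} [Field K] [Field L] [Fintype K] [Fintype L] [Algebra K L]
    {α : L} (hα : IsPrimitiveElement α) {p s δ : ℕ} (hp : p.Prime)
    (hK : Fintype.card K = p ^ s) (hδ : 2 ≤ δ) (hδL : δ ≤ Fintype.card L - 1) :
    ∃ d, IsMinDist K α δ d ∧
      (3 ≤ Fintype.card K → 2 * d ≤ 3 * δ - 1) ∧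
      (Fintype.card K ≤ δ → (d : ℚ) ≤ (1 + p / Fintype.card K) * δ - 1) ∧
      ∀ R, R = δ - 1 - (δ - 1) / Fintype.card K → (R + 1) ^ (R + 1) < Fintype.card L →
        d ≤ 2 * R + 1 := by
  classical
  have hL1 : 1 < Fintype.card L := Fintype.one_lt_card
  obtain ⟨d, hd⟩ := exists_minDist (K := K) hα (δ := δ)
    (by rw [Nat.card_eq_fintype_card]; exact hδL)
  refine ⟨d, hd, ?_, ?_, fun R hR hRL => pigeonhole_upper hα hδ hd hR hRL⟩
  · intro h3
    have := upper_three hα h3 hd (by omega) (by omega)
    omega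
  · intro hq
    have h1 := upper_char hα hp hK hd hq (by omega)
    have hqpos : (0 : ℚ) < Fintype.card K := by exact_mod_cast Fintype.card_pos (α := K)
    have h2 : ((Fintype.card K : ℚ)) * (d + 1) ≤ (Fintype.card K + p) * δ := by exact_mod_cast h1
    have h3 : ((1 : ℚ) + p / Fintype.card K) * δ =
        (Fintype.card K + p) * δ / Fintype.card K := by
      field_simp
    rw [h3, le_sub_iff_add_le, le_div_iff₀ hqpos]
    linarith
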